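import Pool.Agent.H30.LamB

set_option autoImplicit false

namespace Pool.Agent.Results.MP_ef395a_gt.CH

open Pool.Agent.H30.Lam Set Filter TopologicalSpace Cardinal

lemma ex {D : Set (ℕ → ℕ)} (h : ∀ g : ℕ → ℕ, ∃ f ∈ D, ∀ᶠ n in atTop, g n ≤ f n) (h' : ISplit D) :
    ∃ (X Y : Type) (_ : TopologicalSpace X) (_ : TopologicalSpace Y),
      CompactSpace X ∧ MetrizableSpace X ∧ MetrizableSpace Y ∧ SeparableSpace Y ∧
        Split Y ∧ ¬ Split (X × Y) :=
  ⟨ℕ → unitInterval, D, inferInstance, inferInstance, inferInstance, inferInstance, inferInstance,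
    inferInstance, h'.split, not_split (f := fun n => ⟨fun y => (y.1 n : ℝ),
      continuous_of_discreteTopology.comp ((continuous_apply n).comp continuous_subtype_val)⟩) fun g =>
      let ⟨f, h1, h2⟩ := h fun n => g n + 1
      ⟨⟨f, h1⟩, h2.mono fun _ hn => Nat.cast_lt.2 hn⟩⟩

/-- The continuum hypothesis, and also `𝔡 < 𝔯`, give a counterexample to the product question. -/
theorem result (h : (𝔠 : Cardinal.{0}) = ℵ₁ ∨ ∃ D : Set (ℕ → ℕ),
      (∀ g : ℕ → ℕ, ∃ f ∈ D, ∀ᶠ n in atTop, g n ≤ f n) ∧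
      ∀ R : Set (Set ℕ), #R ≤ #D → (∀ a ∈ R, a.Infinite) →
        ∃ A, ∀ a ∈ R, (a ∩ A).Infinite ∧ (a \ A).Infinite) :
    ∃ (X Y : Type) (_ : TopologicalSpace X) (_ : TopologicalSpace Y),
      CompactSpace X ∧ MetrizableSpace X ∧ MetrizableSpace Y ∧ SeparableSpace Y ∧
        Split Y ∧ ¬ Split (X × Y) := by
  obtain h | ⟨D, h1, h2⟩ := h
  · obtain ⟨D, h1, h2⟩ := exists_ch h
    exact ex h1 h2
  · refine ex h1 fun U _ h3 => ?_
    obtain ⟨A, hA⟩ := h2 (range fun y => {n | y ∈ U n}) mk_range_le (by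
      rintro _ ⟨y, rfl⟩; exact h3 y)
    exact ⟨A, fun y => hA _ ⟨y, rfl⟩⟩

end Pool.Agent.Results.MP_ef395a_gt.CH
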