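import Pool.Agent.H30.LamB

set_option autoImplicit false

namespace Pool.Agent.Results.MP_ef395a_gt.Equiv

open Pool.Agent.H30.Lam Set Filter TopologicalSpace

/-- For `Y` with `Split(Λ,Λ)`, all products with compact factors split exactly when `Y` is Menger. -/
theorem result (Y : Type) [TopologicalSpace Y] [MetrizableSpace Y] [SeparableSpace Y] (hY : Split Y) :
    (∀ (X : Type) [TopologicalSpace X] [CompactSpace X] [MetrizableSpace X], Split (X × Y)) ↔
      Menger Y := by
  let _ := metrizableSpaceMetric Y
  have := UniformSpace.secondCountable_of_separable Y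
  refine ⟨fun h => by_contra fun hM => ?_, fun hM X _ _ _ => (hY.isplit.prod hM).split⟩
  obtain ⟨f, hf⟩ := dom_of_not_menger hM
  exact not_split (fun g => let ⟨y, hy⟩ := hf g; ⟨y, Eventually.of_forall hy⟩) (h _)

end Pool.Agent.Results.MP_ef395a_gt.Equiv
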